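import Pool.Agent.Helper97_WHT.Stmt

/-!
# Squad WHT: CHRP (helper15)

The cuspidal character with its restriction to `U`; edit of `Helper93_DEN2/Chr.lean`.
-/

set_option autoImplicit false

open scoped BigOperators

namespace Pool.Agent.WHT.H15

open Pool.Agent.DEN Pool.Agent.TMP Pool.Agent.DEN.H932

section chi
variable {K : Type} [Field K]

private theorem coeff_poly (p : Polynomial K) : HahnSeries.coeff (polyL K p) 1 = 0 := by
  induction p using Polynomial.induction_on' with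
  | add p q hp hq => rw [map_add, HahnSeries.coeff_add, hp, hq, add_zero]
  | monomial n a =>
    have h1 : polyL K (Polynomial.monomial n a) = HahnSeries.C a * tt K ^ n := by
      unfold polyL
      rw [Polynomial.coe_eval₂RingHom, Polynomial.eval₂_monomial]
    rw [h1, tt, HahnSeries.single_pow, one_pow, HahnSeries.C_apply, HahnSeries.single_mul_single,
      mul_one, zero_add, HahnSeries.coeff_single_of_ne]
    rw [nsmul_eq_mul]
    have : (0 : ℤ) ≤ n := Int.natCast_nonneg n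
    omega

private theorem inv_poly_mem {P : Polynomial K} (hP : P ≠ 0) :
    (polyL K P)⁻¹ ∈ Bd K (-(P.natDegree : ℤ)) := by
  obtain ⟨-, -, -, -, f5, -, f7, f8, f9⟩ := H22.hF1 K
  obtain ⟨g1, -, g3, -, -⟩ := H22.hF2 K
  have h0 : polyL K P ≠ 0 := by
    intro h
    exact hP (g1 (h.trans (map_zero _).symm))
  obtain ⟨m, u, hu, hu0, hu1, -, -⟩ := f9 _ h0
  have h1 : polyL K P ∈ Bd K m := by
    rw [hu]
    exact (f8 m u).2 hu0
  have h2 := g3 P m hP h1
  have h3 : (polyL K P)⁻¹ ∈ Bd K (-m) := by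
    rw [hu, mul_inv, ← zpow_neg]
    exact (f8 (-m) _).2 hu1
  exact f5 (-m) _ _ (by omega) h3

private theorem exists_res {P : Polynomial K} (hP : Prime P) (x : K) : ∃ s : Polynomial K,
    HahnSeries.coeff (polyL K s / polyL K P) 1 = x := by
  obtain ⟨-, f2, -, f4, -, -, -, -, -⟩ := H22.hF1 K
  obtain ⟨g1, -, -, g4, -⟩ := H22.hF2 K
  have h0 : polyL K P ≠ 0 := by
    intro h
    exact hP.ne_zero (g1 (h.trans (map_zero _).symm))
  have hdeg : 1 ≤ P.natDegree := by
    by_contra h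
    have h1 : P.natDegree = 0 := by omega
    rw [Polynomial.natDegree_eq_zero] at h1
    obtain ⟨c, hc⟩ := h1
    apply hP.not_isUnit
    rw [← hc]
    refine Polynomial.isUnit_C.2 (isUnit_iff_ne_zero.2 ?_)
    rintro rfl
    exact hP.ne_zero (by rw [← hc, map_zero])
  set z : FF K := HahnSeries.single 1 x with hz
  obtain ⟨s, hs⟩ := g4 1 one_ne_zero (polyL K P * z)
  refine ⟨s, ?_⟩
  rw [map_one, one_mul, Polynomial.natDegree_one] at hs
  have h1 := f4 _ _ _ _ hs (inv_poly_mem hP.ne_zero)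
  have h2 : (polyL K P * z - polyL K s) * (polyL K P)⁻¹ = z - polyL K s / polyL K P := by
    field_simp
  rw [h2] at h1
  have h3 : HahnSeries.coeff (z - polyL K s / polyL K P) 1 = 0 := by
    apply h1 1
    push_cast
    omega
  rw [HahnSeries.coeff_sub, sub_eq_zero] at h3
  rw [← h3, hz, HahnSeries.coeff_single_same]

end chi

section unip
variable {r : ℕ} {C : Matrix (Fin r) (Fin r) ℤ} {K : Type} [Field K]

/-- the nilradical of the Borel subalgebra -/
private def IsN (v : LieV C (FF K)) : Prop := v.1 = 0 ∧ ∀ β : Rt C, ¬ β.Pos → v.2 β = 0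

private theorem not_pos_neg (hC : SimplyLaced C) {β : Rt C} (hβ : β.Pos) : ¬ β.neg.Pos := by
  intro h
  have h0 : β.1 = 0 := by
    funext i
    have h1 := hβ i
    have h2 := h i
    rw [Rt.neg_val, Pi.neg_apply] at h2
    rw [Pi.zero_apply]
    omega
  have h3 := β.2
  rw [h0, ip_zero_left] at h3
  omega

private theorem isN_root (hC : SimplyLaced C) {β : Rt C} (hβ : β.Pos) (a : FF K)
    {v : LieV C (FF K)} (hv : IsN v) : IsN (rootMap β a v) := by
  have hneg : crd v (-β.1) = 0 := by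
    have h1 : crd v (-β.1) = v.2 β.neg := by
      rw [← Rt.neg_val, crd_root]
    rw [h1, hv.2 _ (not_pos_neg hC hβ)]
  refine ⟨?_, ?_⟩
  · funext i
    show v.1 i - a * crd v (-β.1) * ((β.1 i : ℤ) : FF K) = 0
    rw [hneg, hv.1]
    simp
  · intro γ hγ
    have h1 : γ ≠ β := by
      rintro rfl
      exact hγ hβ
    by_cases h2 : ip C β.1 γ.1 = 1
    · rw [rootMap_snd_one β a v γ h2, hv.2 γ hγ]
      have h3 : crd v (γ.1 - β.1) = 0 := by
        unfold crd
        split
        · rename_i h4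
          apply hv.2
          intro h5
          apply hγ
          intro i
          have h6 : 0 ≤ (γ.1 - β.1) i := h5 i
          have h7 := hβ i
          rw [Pi.sub_apply] at h6
          omega
        · rfl
      rw [h3]
      ring
    · rw [rootMap_snd_other β a v γ h1 h2, hv.2 γ hγ]

private theorem isN_ug (hC : SimplyLaced C) {u : grp C K} (hu : u ∈ Ug C K) :
    (∀ v : LieV C (FF K), IsN v → IsN (u.1 v)) ∧
      ∀ v : LieV C (FF K), IsN v → IsN ((u⁻¹).1 v) := by
  unfold Ug at hu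
  induction hu using Subgroup.closure_induction with
  | mem x hx =>
    obtain ⟨β, a, hβ, hx⟩ := hx
    have e : x = xg hC β a := eq_xg hC β a x hx
    refine ⟨fun v hv => ?_, fun v hv => ?_⟩
    · rw [hx]
      exact isN_root hC hβ a hv
    · rw [e, xg_inv, xg_apply]
      exact isN_root hC hβ _ hv
  | one =>
    refine ⟨fun v hv => hv, fun v hv => ?_⟩
    rw [inv_one]
    exact hv
  | mul x y _ _ hx hy =>
    refine ⟨fun v hv => hx.1 _ (hy.1 _ hv), fun v hv => ?_⟩
    rw [mul_inv_rev]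
    exact hy.2 _ (hx.2 _ hv)
  | inv x _ hx =>
    refine ⟨hx.2, fun v hv => ?_⟩
    rw [inv_inv]
    exact hx.1 _ hv

private theorem isN_EE {θ : Rt C} (hθ : θ.Pos) : IsN (EE θ : LieV C (FF K)) := by
  refine ⟨?_, fun β hβ => ?_⟩
  · funext i
    rw [EE_fst]
  · apply EE_ne
    rintro rfl
    exact hβ hθ

end unip

/-- CHRP. -/
theorem chrp : ChrpStmt := by
  intro r C hC K _ _ P M hP hM0 hPM e he
  have : Finite (Rt C) := H22.hRF r C hC
  obtain ⟨x0, hx0⟩ : ∃ x, e x ≠ 1 := by
    by_contra h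
    push Not at h
    exact he (DFunLike.ext e 1 fun x => by rw [h x, AddChar.one_apply])
  obtain ⟨M', rfl⟩ := hPM
  set M := P ^ 2 * M' with hM
  have hinj : Function.Injective (polyL K) := (H22.hF2 K).1
  have hne : ∀ p : Polynomial K, p ≠ 0 → polyL K p ≠ 0 := by
    intro p hp h
    exact hp (hinj (h.trans (map_zero _).symm))
  -- the character of `K[t]`
  obtain ⟨χ, hχ⟩ : ∃ χ : Polynomial K → ℂ, ∀ q, χ q =
      e (-HahnSeries.coeff (polyL K q / polyL K (P ^ 2)) 1) := ⟨_, fun q => rfl⟩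
  have χadd : ∀ a b, χ (a + b) = χ a * χ b := by
    intro a b
    rw [hχ, hχ, hχ, map_add, add_div, HahnSeries.coeff_add, neg_add, AddChar.map_add_eq_mul]
  have χnorm : ∀ a, ‖χ a‖ = 1 := by
    intro a
    rw [hχ]
    exact e.norm_apply _
  have χP2 : ∀ a, χ (P ^ 2 * a) = 1 := by
    intro a
    rw [hχ, map_mul, mul_div_cancel_left₀ _ (hne _ (pow_ne_zero 2 hP.ne_zero)), coeff_poly,
      neg_zero, AddChar.map_zero_eq_one]
  obtain ⟨s, χP⟩ : ∃ s, χ (P * s) ≠ 1 := by
    obtain ⟨s, hs⟩ := exists_res hP (-x0)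
    refine ⟨s, ?_⟩
    have h1 : polyL K (P * s) / polyL K (P ^ 2) = polyL K s / polyL K P := by
      rw [map_mul, map_pow, pow_two, mul_div_mul_left _ _ (hne _ hP.ne_zero)]
    rw [hχ, h1, hs, neg_neg]
    exact hx0
  have hA : ∀ a : FF K, a ∈ ringA K 1 → ∃ p : Polynomial K, a = polyL K p := by
    intro a ha
    have h1 : a ∈ (ringA K 1 : Set (FF K)) := ha
    rw [(H22.hF2 K).2.2.2.2] at h1
    obtain ⟨p, hp⟩ := h1
    exact ⟨p, hp.symm⟩
  have hpol : ∀ p : Polynomial K, polyL K p ∈ ringA K 1 := fun p => H67.poly_mem 1 p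
  -- indices
  obtain ⟨_, _, _, r4, _, r6, _⟩ := H222.hRtc r C hC
  choose ix hix using r6 K
  -- the Cartan parts
  set cd : grp C K → Rt C → Fin r → FF K := fun g μ i => (g.1 (EE μ : LieV C (FF K))).1 i with hcd
  classical
  set ψ : grp C K → ℂ := fun g => if h : ∃ q, Phi hC P ix (cd g) = polyL K (M * q) then
    χ h.choose else 1 with hψ
  have hψq : ∀ (g : grp C K) (q : Polynomial K), Phi hC P ix (cd g) = polyL K (M * q) →
      ψ g = χ q := by
    intro g q hq
    have h : ∃ q, Phi hC P ix (cd g) = polyL K (M * q) := ⟨q, hq⟩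
    have h1 : ψ g = χ h.choose := by rw [hψ]; exact dif_pos h
    rw [h1]
    congr 1
    have h2 := hinj (h.choose_spec.symm.trans hq)
    exact mul_left_cancel₀ hM0 h2
  -- elements of the congruence subgroup
  have hval : ∀ N : Polynomial K, ∀ g : grp C K, TrivMod C K 1 N g → ∃ q : Polynomial K,
      Phi hC P ix (cd g) = polyL K (N * q) := by
    intro N g hg
    choose x hx hx' using fun μ : Rt C => triv_vec hg (EE_cd (ringA K 1) μ)
    have e : cd g = fun μ i => polyL K N * (x μ).1 i := by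
      funext μ i
      rw [hcd]
      simp only
      rw [hx' μ]
      simp [EE_fst]
    rw [e, Phi_mul]
    obtain ⟨t, ht⟩ := hA _ (Phi_mem hC (S := ringA K 1) (hpol P) ix (F := fun μ i => (x μ).1 i)
      (fun μ i => (hx μ).1 i))
    exact ⟨t, by rw [ht, map_mul]⟩
  have hadd : ∀ a b : grp C K, TrivMod C K 1 M a → TrivMod C K 1 M b → ∃ t : Polynomial K,
      Phi hC P ix (cd (a * b)) = Phi hC P ix (cd a) + Phi hC P ix (cd b) +
        polyL K (M * (M * t)) := by
    intro a b ha hb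
    choose x hx hx' using fun μ : Rt C => triv_vec hb (EE_cd (ringA K 1) μ)
    choose y hy hy' using fun μ : Rt C => triv_vec ha (hx μ)
    have e : cd (a * b) = fun μ i => (cd a μ i + cd b μ i) +
        polyL K M * (polyL K M * (y μ).1 i) := by
      funext μ i
      have e1 : (a * b).1 (EE μ : LieV C (FF K)) = a.1 (b.1 (EE μ)) := rfl
      have e2 : cd b μ i = polyL K M * (x μ).1 i := by
        rw [hcd]
        simp only
        rw [hx' μ]
        simp [EE_fst]
      rw [e2, hcd]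
      simp only
      rw [e1, hx' μ, map_add, map_smul, hy' μ]
      simp only [Prod.fst_add, Prod.smul_fst, Pi.add_apply, Pi.smul_apply, smul_eq_mul]
      ring
    rw [e, Phi_add hC P ix (fun μ i => cd a μ i + cd b μ i), Phi_add, Phi_mul, Phi_mul]
    obtain ⟨t, ht⟩ := hA _ (Phi_mem hC (S := ringA K 1) (hpol P) ix (F := fun μ i => (y μ).1 i)
      (fun μ i => (hy μ).1 i))
    exact ⟨t, by rw [ht]; simp only [map_mul]⟩
  have χ2 : ∀ t : Polynomial K, χ (M * t) = 1 := by
    intro t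
    rw [hM, mul_assoc]
    exact χP2 _
  obtain ⟨nconj, _, _, _, _, nint⟩ := H22.hNrm r C hC K 1 M one_ne_zero hM0 isCoprime_one_left
  refine ⟨ψ, ?_, ?_, ?_, ?_, ?_⟩
  · intro a ha b hb
    obtain ⟨qa, hqa⟩ := hval M a ha.2.1
    obtain ⟨qb, hqb⟩ := hval M b hb.2.1
    obtain ⟨t, ht⟩ := hadd a b ha.2.1 hb.2.1
    rw [hqa, hqb, ← map_add, ← map_add, ← mul_add, ← mul_add] at ht
    rw [hψq _ _ ht, hψq _ _ hqa, hψq _ _ hqb, χadd, χadd, χ2, mul_one]
  · intro a ha
    obtain ⟨qa, hqa⟩ := hval M a ha.2.1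
    rw [hψq _ _ hqa]
    exact χnorm _
  · intro a ha
    have mono : ∀ g : grp C K, TrivMod C K 1 (M * P ^ 2) g → TrivMod C K 1 M g := by
      intro g hg v hv
      obtain ⟨h1, h2⟩ := hg v hv
      refine ⟨fun i => ?_, fun γ => ?_⟩
      · obtain ⟨b, hb, hb'⟩ := h1 i
        exact ⟨polyL K (P ^ 2) * b, mul_mem (hpol _) hb, by rw [hb', map_mul]; ring⟩
      · obtain ⟨b, hb, hb'⟩ := h2 γ
        exact ⟨polyL K (P ^ 2) * b, mul_mem (hpol _) hb, by rw [hb', map_mul]; ring⟩
    refine ⟨⟨ha.1, mono _ ha.2.1, mono _ ha.2.2⟩, ?_⟩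
    obtain ⟨q, hq⟩ := hval _ a ha.2.1
    rw [mul_assoc] at hq
    rw [hψq _ _ hq]
    exact χP2 _
  · intro γ hγ i
    have hle : arith C K 1 ≤ GS C (loc K P) := by
      apply Subgroup.closure_mono
      rintro g ⟨β, a, ha, hg⟩
      exact ⟨β, a, (H222.hLoc K P hP).2.1 a ha, hg⟩
    obtain ⟨β, hβi, hβ⟩ := H222.hEll r C hC K P hP ix hix γ (hle hγ) i
    set x : LieV C (FF K) := γ.1 (EE β) with hx
    have hxi : Cd (ringA K 1 : Set (FF K)) x := nint γ hγ _ (EE_cd _ β)
    have hyA : yf hC P ix x ∈ ringA K 1 := by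
      rw [← Phi_br]
      exact Phi_mem hC (hpol P) ix fun μ i => (br_mem hxi (EE_cd _ μ)).1 i
    obtain ⟨y, hy⟩ := hA _ hyA
    have hy2 : ¬ P ^ 2 ∣ y := by
      rintro ⟨t, rfl⟩
      apply hβ
      rw [hy, map_mul, map_pow]
      exact ⟨polyL K t, pol_mem P t, rfl⟩
    obtain ⟨c0, d, hcd0⟩ := exists_bez hP hy2
    obtain ⟨c, hcd'⟩ : ∃ c : Polynomial K, P * s = c * y + P ^ 2 * (d * s) :=
      ⟨c0 * s, by linear_combination s * hcd0⟩
    have hu : xg hC β (polyL K M * polyL K c) ∈ cong C K 1 M := H67.cong_x hC 1 M β (hpol c)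
    refine ⟨xg hC β (polyL K M * polyL K c), Subgroup.subset_closure ⟨β, _, hβi, fun v => rfl⟩,
      hu, ?_⟩
    set a : FF K := polyL K M * polyL K c with ha
    have hg := nconj γ hγ _ hu
    set w : Rt C → LieV C (FF K) := fun μ => (γ⁻¹).1 (EE μ) with hw
    have hwi : ∀ μ, Cd (ringA K 1 : Set (FF K)) (w μ) := fun μ =>
      nint γ⁻¹ (inv_mem hγ) _ (EE_cd _ μ)
    have hγw : ∀ μ, γ.1 (w μ) = EE μ := by
      intro μ
      have e : γ.1 (w μ) = (γ * γ⁻¹).1 (EE μ) := rfl
      rw [e, mul_inv_cancel]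
      rfl
    have hEE : (EE β : LieV C (FF K)) = Br.ev β := rfl
    have e : cd (γ * xg hC β a * γ⁻¹) = fun μ i => a * (br x (EE μ)).1 i +
        a * (a * ((w μ).2 β.neg * x.1 i)) := by
      funext μ i
      have e1 : (γ * xg hC β a * γ⁻¹).1 (EE μ : LieV C (FF K)) = γ.1 (rootMap β a (w μ)) := rfl
      rw [hcd]
      simp only
      rw [e1, Br.rootMap_eq, map_add, map_add, map_smul, map_smul, H222.hEqv r C hC K, hγw, ← hEE,
        ← hx]
      simp only [Prod.fst_add, Prod.smul_fst, Pi.add_apply, Pi.smul_apply, smul_eq_mul, EE_fst,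
        Pi.zero_apply]
      ring
    have hΦ : Phi hC P ix (cd (γ * xg hC β a * γ⁻¹)) = a * yf hC P ix x +
        a * (a * Phi hC P ix fun μ i => (w μ).2 β.neg * x.1 i) := by
      rw [e, Phi_add hC P ix (fun μ i => a * (br x (EE μ)).1 i), Phi_mul, Phi_mul, Phi_mul, Phi_br]
    obtain ⟨t, ht⟩ := hA _ (Phi_mem hC (S := ringA K 1) (hpol P) ix
      (F := fun μ i => (w μ).2 β.neg * x.1 i) (fun μ i => mul_mem ((hwi μ).2 _) (hxi.1 i)))
    have hq : Phi hC P ix (cd (γ * xg hC β a * γ⁻¹)) =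
        polyL K (M * (c * y + M * (c * (c * t)))) := by
      rw [hΦ, ht, hy, ha]
      simp only [map_mul, map_add]
      ring
    rw [hψq _ _ hq, χadd, χ2, mul_one]
    intro h1
    apply χP
    rw [hcd', χadd, χP2, mul_one]
    exact h1
  · intro u hu huM
    obtain ⟨q, hq⟩ := hval M u huM.2.1
    have hN := isN_ug hC hu
    have hΦ : Phi hC P ix (cd u) = -(polyL K P * ∑ i, sc hC i u) := by
      unfold Phi
      have e1 : ∑ᶠ θ : {θ : Rt C // IsDom C θ.1}, cd u θ.1 (ix θ.1) = 0 := by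
        rw [← finsum_zero]
        refine finsum_congr fun θ => ?_
        have h1 := (hN.1 _ (isN_EE (K := K) (r4 θ.1 θ.2))).1
        rw [hcd]
        simp only
        rw [h1]
        rfl
      have e2 : ∑ j, cd u (hC.sr j).neg j = -∑ i, sc hC i u := by
        rw [← Finset.sum_neg_distrib]
        refine Finset.sum_congr rfl fun j _ => ?_
        unfold sc
        rw [neg_neg]
      rw [e1, e2, add_zero, mul_neg]
    have h1 : ∑ i, polyL K P * sc hC i u / polyL K (M * P ^ 2) =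
        -(polyL K q / polyL K (P ^ 2)) := by
      rw [← Finset.sum_div, ← Finset.mul_sum]
      have h2 : polyL K P * ∑ i, sc hC i u = -(polyL K M * polyL K q) := by
        rw [← map_mul, ← hq, hΦ, neg_neg]
      rw [h2, (polyL K).map_mul M (P ^ 2), neg_div, mul_div_mul_left _ _ (hne _ hM0)]
    rw [hψq _ _ hq, hχ]
    unfold chi
    rw [h1, HahnSeries.coeff_neg]

end Pool.Agent.WHT.H15
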